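import Pool.Agent.N162.HN.Stm

/-!
# HN/RAT: the base field consists of rational functions of the coordinates
-/

set_option autoImplicit false

open FF Pool.Agent.W603.LV Pool.Agent.Y184.NT Pool.Agent.N162.BC IntermediateField MvPolynomial
open Pool.Agent.N162.HN

namespace Pool.Agent.N693.HN.RAT

/-! ### Evaluation at a place -/

theorem ge_eval {Ω E : Type} [Field Ω] [Field E] [Algebra Ω E] (v : Place Ω E) {m : ℕ}
    (X : Fin m → E) (p : Fin m → Ω) (h : ∀ i, Ge v 1 (X i - algebraMap Ω E (p i)))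
    (P : MvPolynomial (Fin m) Ω) :
    Ge v 1 (aeval X P - algebraMap Ω E (eval p P)) ∧ Ge v 0 (aeval X P) := by
  induction P using MvPolynomial.induction_on with
  | C a =>
    refine ⟨?_, ?_⟩
    · rw [aeval_C, eval_C, sub_self]; exact Ge.zero
    · rw [aeval_C]; exact Ge.const a
  | add P Q hP hQ =>
    refine ⟨?_, ?_⟩
    · have := hP.1.add hQ.1
      rw [map_add, map_add, map_add]
      convert this using 1
      ring
    · rw [map_add]; exact hP.2.add hQ.2
  | mul_X P i hP =>
    have h0 : Ge v 0 (X i) := by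
      have := ((h i).mono (by norm_num : (0 : ℤ) ≤ 1)).add (Ge.const (P := v) (p i))
      simpa using this
    refine ⟨?_, ?_⟩
    · have h1 := hP.1.mul h0
      have h2 := (Ge.const (P := v) (eval p P)).mul (h i)
      rw [add_zero] at h1
      rw [zero_add] at h2
      have := h1.add h2
      rw [map_mul, map_mul, map_mul, aeval_X, eval_X]
      convert this using 1
      ring
    · rw [map_mul, aeval_X]
      have := hP.2.mul h0
      simpa using this

/-! ### Dehomogenisation -/

section dh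

variable {n : ℕ}

/-- the equation in the coordinates `1, …, n + 1` -/
noncomputable def dh : MvPolynomial (Fin (n + 2)) ℂ →ₐ[ℂ] MvPolynomial (Fin (n + 1)) ℂ :=
  aeval (Fin.cons 1 X)

theorem aeval_dh {E : Type} [Field E] [Algebra ℂ E] (q : Fin (n + 2) → E) (hq : q 0 = 1)
    (T : MvPolynomial (Fin (n + 2)) ℂ) :
    aeval (fun j : Fin (n + 1) => q j.succ) (dh T) = aeval q T := by
  have : (aeval (fun j : Fin (n + 1) => q j.succ)).comp dh =
      (aeval q : MvPolynomial (Fin (n + 2)) ℂ →ₐ[ℂ] E) := by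
    apply MvPolynomial.algHom_ext
    intro i
    rw [AlgHom.comp_apply, dh, aeval_X, aeval_X]
    refine Fin.cases ?_ (fun j => ?_) i
    · rw [Fin.cons_zero, map_one, hq]
    · rw [Fin.cons_succ, aeval_X]
  exact DFunLike.congr_fun this T

theorem dh_rename (P : MvPolynomial (Fin (n + 1)) ℂ) : dh (rename Fin.succ P) = P := by
  rw [dh, aeval_rename]
  have : (Fin.cons 1 X : Fin (n + 2) → MvPolynomial (Fin (n + 1)) ℂ) ∘ Fin.succ = X := by
    funext j
    simp
  rw [this, aeval_X_left_apply]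

theorem indep {K E : Type} [Field K] [Algebra ℂ K] [Field E] [Algebra ℂ E]
    (F : MvPolynomial (Fin (n + 2)) ℂ) (x : Fin (n + 2) → K) (hx0 : x 0 = 1)
    (hxF : aeval x F = 0) (hrel : Relns F x) (Y : Fin (n + 2) → E) (hY0 : Y 0 = 1)
    (hYF : aeval Y F ≠ 0) (hsp : ∀ T : MvPolynomial (Fin (n + 2)) ℂ, aeval Y T = 0 → aeval x T = 0) :
    ∀ P : MvPolynomial (Fin (n + 1)) ℂ, aeval (fun j : Fin (n + 1) => Y j.succ) P = 0 → P = 0 := by
  have hdF : 0 < (dh F).totalDegree := by
    rcases Nat.eq_zero_or_pos (dh F).totalDegree with h | h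
    · exfalso
      rw [totalDegree_eq_zero_iff_eq_C] at h
      have h1 := aeval_dh x hx0 F
      rw [h, hxF, aeval_C, map_eq_zero] at h1
      have h2 := aeval_dh Y hY0 F
      rw [h, h1, map_zero, map_zero] at h2
      exact hYF h2.symm
    · exact h
  intro P
  induction hk : P.totalDegree using Nat.strong_induction_on generalizing P with
  | _ k ih =>
    intro hP
    by_contra hP0
    have h1 : aeval Y (rename Fin.succ P) = 0 := by
      rw [aeval_rename]; exact hP
    obtain ⟨R, hR⟩ := hrel _ (hsp _ h1)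
    have h2 : P = dh F * dh R := by
      have h3 := hR (FractionRing (MvPolynomial (Fin (n + 1)) ℂ))
        (fun i => algebraMap _ _ ((Fin.cons 1 X : Fin (n + 2) → MvPolynomial (Fin (n + 1)) ℂ) i))
        (by rw [Fin.cons_zero, map_one])
      have h4 : ∀ T : MvPolynomial (Fin (n + 2)) ℂ,
          aeval (fun i => algebraMap (MvPolynomial (Fin (n + 1)) ℂ)
            (FractionRing (MvPolynomial (Fin (n + 1)) ℂ))
            ((Fin.cons 1 X : Fin (n + 2) → MvPolynomial (Fin (n + 1)) ℂ) i)) T =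
          algebraMap (MvPolynomial (Fin (n + 1)) ℂ)
            (FractionRing (MvPolynomial (Fin (n + 1)) ℂ)) (dh T) := by
        intro T
        rw [dh]
        exact aeval_algebraMap_apply _ _ _
      rw [h4, h4, h4, ← map_mul, dh_rename] at h3
      exact IsFractionRing.injective _ _ h3
    have h5 : aeval Y R = 0 := by
      have h3 := hR E Y hY0
      rw [h1] at h3
      rcases mul_eq_zero.1 h3.symm with h | h
      · exact absurd h hYF
      · exact h
    have h6 : dh F ≠ 0 := by
      intro h; rw [h, totalDegree_zero] at hdF; exact lt_irrefl _ hdF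
    have h7 : dh R ≠ 0 := by
      intro h; rw [h, mul_zero] at h2; exact hP0 h2
    have h8 : P.totalDegree = (dh F).totalDegree + (dh R).totalDegree := by
      conv_lhs => rw [h2]
      exact totalDegree_mul_of_isDomain h6 h7
    apply h7
    apply ih (dh R).totalDegree (by omega) (dh R) rfl
    rw [aeval_dh Y hY0, h5]

end dh

/-! ### Valuation rings over a discrete valuation ring -/

theorem inter {R E₀ : Type} [Field R] (A : Subring R) [IsDiscreteValuationRing A]
    [IsFractionRing A R] [Field E₀] [Algebra R E₀] [Algebra.IsAlgebraic R E₀]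
    (t : A) (ht : Irreducible t) (O : ValuationSubring E₀)
    (hA : ∀ a : A, algebraMap R E₀ (algebraMap A R a) ∈ O) (hO : O ≠ ⊤) (r : R)
    (hr : algebraMap R E₀ r ∈ O) : r ∈ A := by
  by_contra hrA
  have hr0 : r ≠ 0 := by rintro rfl; exact hrA (zero_mem _)
  have h1 : ∃ b : A, (b : R) = r⁻¹ := by
    rcases ValuationRing.isInteger_or_isInteger A r with h | h
    · obtain ⟨a, ha⟩ := h
      exact absurd (ha ▸ a.2) hrA
    · exact h
  obtain ⟨b, hb⟩ := h1
  have hbu : ¬ IsUnit b := by
    intro hu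
    obtain ⟨c, hc⟩ := hu.exists_right_inv
    apply hrA
    have h2 : (b : R) * (c : R) = 1 := by
      have := congrArg (Subtype.val) hc
      simpa using this
    have : (c : R) = r := by
      rw [hb] at h2
      field_simp at h2
      exact h2
    rw [← this]; exact c.2
  have htb : t ∣ b := by
    have h2 := (IsDiscreteValuationRing.irreducible_iff_uniformizer t).1 ht
    have hb' : b ∈ IsLocalRing.maximalIdeal A := hbu
    rw [h2] at hb'
    exact Ideal.mem_span_singleton.1 hb'
  obtain ⟨c, rfl⟩ := htb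
  have ht0 : (t : R) ≠ 0 := by
    intro h
    exact ht.ne_zero (Subtype.ext h)
  have ht1 : algebraMap R E₀ (t : R)⁻¹ ∈ O := by
    have : (t : R)⁻¹ = (c : R) * r := by
      have h3 : (t : R) * (c : R) = r⁻¹ := by
        rw [← hb]; rfl
      have h4 : (t : R) * ((c : R) * r) = 1 := by
        rw [← mul_assoc, h3, inv_mul_cancel₀ hr0]
      exact inv_eq_of_mul_eq_one_right h4
    rw [this, map_mul]
    exact O.mul_mem _ _ (hA c) hr
  have hall : ∀ y : R, algebraMap R E₀ y ∈ O := by
    intro y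
    rcases ValuationRing.isInteger_or_isInteger A y with ⟨a, ha⟩ | ⟨a, ha⟩
    · rw [← ha]; exact hA a
    · by_cases ha0 : a = 0
      · rw [ha0, map_zero] at ha
        have : y = 0 := by
          rw [← inv_inv y, ← ha, inv_zero]
        rw [this, map_zero]; exact O.zero_mem
      · obtain ⟨k, u, hu⟩ := IsDiscreteValuationRing.eq_unit_mul_pow_irreducible ha0 ht
        have h5 : y = ((u⁻¹ : Aˣ) : A) * ((t : R)⁻¹) ^ k := by
          rw [← inv_inv y, ← ha, hu, map_mul, map_pow, mul_inv, ← inv_pow]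
          congr 1
          have h6 : algebraMap A R (u : A) * algebraMap A R ((u⁻¹ : Aˣ) : A) = 1 := by
            rw [← map_mul, Units.mul_inv, map_one]
          exact inv_eq_of_mul_eq_one_right h6
        rw [h5, map_mul, map_pow]
        exact O.mul_mem _ _ (hA _) (pow_mem ht1 k)
  apply hO
  rw [_root_.eq_top_iff]
  intro e _
  have he : IsIntegral R e := (Algebra.IsAlgebraic.isAlgebraic e).isIntegral
  let _ : Algebra R O := ((algebraMap R E₀).codRestrict O hall).toAlgebra
  have : IsScalarTower R O E₀ := IsScalarTower.of_algebraMap_eq (fun _ => rfl)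
  have he' : IsIntegral O e := he.tower_top
  obtain ⟨y, hy⟩ := IsIntegrallyClosed.isIntegral_iff.1 he'
  rw [← hy]
  exact y.2

/-! ### Finiteness -/

theorem alg {n : ℕ} {E : Type} [Field E] [Algebra ℂ E] (Y : Fin (n + 2) → E)
    (hind : ∀ P : MvPolynomial (Fin (n + 1)) ℂ,
      aeval (fun j : Fin (n + 1) => Y j.succ) P = 0 → P = 0)
    (htr : Algebra.trdeg ℂ E = (n + 1 : ℕ)) (R : Subfield E) (hC : ∀ z : ℂ, algebraMap ℂ E z ∈ R)
    (hY : ∀ j, Y j ∈ R) : Algebra.IsAlgebraic R E := by
  have h1 : AlgebraicIndependent ℂ (fun j : Fin (n + 1) => Y j.succ) := by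
    rw [algebraicIndependent_iff]
    exact hind
  have h2 := h1.isTranscendenceBasis_of_trdeg_le_of_finite (by rw [htr]; simp)
  have h3 := h2.isAlgebraic_field
  have hB : (IntermediateField.adjoin ℂ (Set.range fun j : Fin (n + 1) => Y j.succ)).toSubfield
      ≤ R := by
    apply adjoin_le_subfield
    · rintro _ ⟨z, rfl⟩; exact hC z
    · rintro _ ⟨j, rfl⟩; exact hY _
  let _ : Algebra (IntermediateField.adjoin ℂ (Set.range fun j : Fin (n + 1) => Y j.succ)) R :=
    (Subfield.inclusion hB).toAlgebra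
  have : IsScalarTower (IntermediateField.adjoin ℂ (Set.range fun j : Fin (n + 1) => Y j.succ))
    R E := IsScalarTower.of_algebraMap_eq (fun _ => rfl)
  exact Algebra.IsAlgebraic.tower_top
    (K := IntermediateField.adjoin ℂ (Set.range fun j : Fin (n + 1) => Y j.succ)) R

theorem fin {L E : Type} [Field L] [Algebra ℂ L] [Algebra.EssFiniteType ℂ L] [Field E]
    [Algebra ℂ E] [Algebra L E] [IsScalarTower ℂ L E] (R : Subfield E)
    (hC : ∀ z : ℂ, algebraMap ℂ E z ∈ R) [Algebra.IsAlgebraic R E] (E₀ : Subfield E)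
    (hE : E₀ ≤ Subfield.closure (Set.range (algebraMap L E) ∪ R)) [Algebra R E₀]
    [IsScalarTower R E₀ E] : FiniteDimensional R E₀ := by
  obtain ⟨s, hs⟩ := IntermediateField.fg_top ℂ L
  have h1 : FiniteDimensional R (IntermediateField.adjoin R (algebraMap L E '' (s : Set L))) := by
    have : Finite (algebraMap L E '' (s : Set L)) := by
      exact Set.Finite.to_subtype (s.finite_toSet.image _)
    apply IntermediateField.finiteDimensional_adjoin
    intro x _
    exact (Algebra.IsAlgebraic.isAlgebraic x).isIntegral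
  have h2 : E₀ ≤ (IntermediateField.adjoin R (algebraMap L E '' (s : Set L))).toSubfield := by
    refine hE.trans ?_
    rw [Subfield.closure_le]
    rintro _ (⟨a, rfl⟩ | ha)
    · have h3 : (IntermediateField.adjoin ℂ (s : Set L)).toSubfield ≤
          (IntermediateField.adjoin R (algebraMap L E '' (s : Set L))).toSubfield.comap
            (algebraMap L E) := by
        apply adjoin_le_subfield
        · rintro _ ⟨z, rfl⟩
          change algebraMap L E (algebraMap ℂ L z) ∈
            IntermediateField.adjoin R (algebraMap L E '' (s : Set L))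
          rw [← IsScalarTower.algebraMap_apply]
          exact (IntermediateField.adjoin R (algebraMap L E '' (s : Set L))).algebraMap_mem
            ⟨_, hC z⟩
        · intro y hy
          exact IntermediateField.subset_adjoin R _ (Set.mem_image_of_mem _ hy)
      rw [hs] at h3
      exact h3 (by simp)
    · exact (IntermediateField.adjoin R (algebraMap L E '' (s : Set L))).algebraMap_mem ⟨_, ha⟩
  let f : E₀ →ₗ[R] (IntermediateField.adjoin R (algebraMap L E '' (s : Set L))) :=
    { toFun := fun e => ⟨e, h2 e.2⟩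
      map_add' := fun _ _ => rfl
      map_smul' := by
        intro r e
        apply Subtype.ext
        change ((r • e : E₀) : E) = r • (e : E)
        rw [Algebra.smul_def, Algebra.smul_def]
        change ((algebraMap R E₀ r : E₀) : E) * (e : E) = _
        congr 1
        exact (IsScalarTower.algebraMap_apply R E₀ E r).symm }
  apply FiniteDimensional.of_injective f
  intro a b hab
  apply Subtype.ext
  exact (Subtype.ext_iff.1 hab : ((f a : _) : E) = (f b : _))

/-! ### The descent -/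

theorem core (hFUND : StFUND) (hVEX : StVEX) (hDVR : StDVR) {n : ℕ} {K E L : Type} [Field K]
    [Algebra ℂ K] [Field E] [Algebra ℂ E] [Field L] [Algebra ℂ L] [Algebra.EssFiniteType ℂ L]
    [Algebra L E] [IsScalarTower ℂ L E] (F : MvPolynomial (Fin (n + 2)) ℂ) (x : Fin (n + 2) → K)
    (hx0 : x 0 = 1) (hxF : aeval x F = 0) (hrel : Relns F x) (X : Fin (n + 2) → E)
    (hX0 : X 0 = 1) (hXF : aeval X F ≠ 0)
    (hsp : ∀ T : MvPolynomial (Fin (n + 2)) ℂ, aeval X T = 0 → aeval x T = 0)
    (hind : ∀ P : MvPolynomial (Fin (n + 1)) ℂ,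
      aeval (fun j : Fin (n + 1) => X j.succ) P = 0 → P = 0)
    (htr : Algebra.trdeg ℂ E = (n + 1 : ℕ)) (R₀ E₀ : Subfield E)
    (hR₀ : R₀ = Subfield.closure (Set.range (algebraMap ℂ E) ∪ Set.range X))
    (hE₀ : E₀ = Subfield.closure (Set.range (algebraMap L E) ∪ Set.range X))
    (Ct : ValuationSubring E → Prop)
    (hCt : ∀ O : ValuationSubring E, (∀ P : MvPolynomial (Fin (n + 2)) ℂ, aeval X P ∈ O ∧
      (aeval x P ≠ 0 ↔ aeval X P ≠ 0 ∧ (aeval X P)⁻¹ ∈ O)) → Ct O)
    (hU : ∀ O O' : ValuationSubring E, Ct O → Ct O' → ∀ e ∈ E₀, e ∈ O → e ∈ O')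
    (hI : ∀ O : ValuationSubring E, Ct O → ∀ e ∈ E₀, e ∈ O →
      ∃ P Q : MvPolynomial (Fin (n + 2)) ℂ, aeval x Q ≠ 0 ∧
        (e - aeval X P / aeval X Q) / aeval X F ∈ O) (a : L) : algebraMap L E a ∈ R₀ := by
  have hC : ∀ z : ℂ, algebraMap ℂ E z ∈ R₀ := by
    intro z; rw [hR₀]; exact Subfield.subset_closure (Or.inl ⟨z, rfl⟩)
  have hX : ∀ j, X j ∈ R₀ := by
    intro z; rw [hR₀]; exact Subfield.subset_closure (Or.inr ⟨z, rfl⟩)
  have hLE : ∀ z : L, algebraMap L E z ∈ E₀ := by
    intro z; rw [hE₀]; exact Subfield.subset_closure (Or.inl ⟨z, rfl⟩)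
  have hle : R₀ ≤ E₀ := by
    rw [hR₀, Subfield.closure_le]
    rintro _ (⟨z, rfl⟩ | ⟨j, rfl⟩)
    · rw [IsScalarTower.algebraMap_apply ℂ L E]; exact hLE _
    · rw [hE₀]; exact Subfield.subset_closure (Or.inr ⟨j, rfl⟩)
  let _ : Algebra ℂ R₀ := ((algebraMap ℂ E).codRestrict R₀ hC).toAlgebra
  have _ : IsScalarTower ℂ R₀ E := IsScalarTower.of_algebraMap_eq (fun _ => rfl)
  let Y : Fin (n + 2) → R₀ := fun j => ⟨X j, hX j⟩
  have hY : ∀ P : MvPolynomial (Fin (n + 2)) ℂ, ((aeval Y P : R₀) : E) = aeval X P := by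
    intro P
    have := MvPolynomial.aeval_algebraMap_apply E Y P
    exact this.symm
  have hY' : ∀ P : MvPolynomial (Fin (n + 1)) ℂ,
      ((aeval (fun j : Fin (n + 1) => Y j.succ) P : R₀) : E) =
        aeval (fun j : Fin (n + 1) => X j.succ) P := by
    intro P
    have := MvPolynomial.aeval_algebraMap_apply E (fun j : Fin (n + 1) => Y j.succ) P
    exact this.symm
  have htop : IntermediateField.adjoin ℂ (Set.range Y) = ⊤ := by
    rw [_root_.eq_top_iff]
    intro r _
    have h1 : R₀ ≤ (IntermediateField.adjoin ℂ (Set.range Y)).toSubfield.map R₀.subtype := by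
      conv_lhs => rw [hR₀]
      rw [Subfield.closure_le]
      rintro _ (⟨z, rfl⟩ | ⟨j, rfl⟩)
      · exact ⟨algebraMap ℂ R₀ z,
          (IntermediateField.adjoin ℂ (Set.range Y)).algebraMap_mem z, rfl⟩
      · exact ⟨Y j, IntermediateField.subset_adjoin ℂ _ ⟨j, rfl⟩, rfl⟩
    obtain ⟨y, hy, hyr⟩ := h1 r.2
    have : y = r := Subtype.ext hyr
    rw [← this]
    exact hy
  have hYF : aeval Y F ≠ 0 := by
    intro h
    apply hXF
    rw [← hY, h]; rfl
  obtain ⟨A, iA, iF, t, ht, htF, hA⟩ := hDVR n K R₀ F x hx0 hxF hrel Y (Subtype.ext hX0) hYF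
    (fun P hP => hind P (by rw [← hY', hP]; rfl)) htop
  let _ : Algebra R₀ E₀ := (Subfield.inclusion hle).toAlgebra
  have _ : IsScalarTower R₀ E₀ E := IsScalarTower.of_algebraMap_eq (fun _ => rfl)
  have _ : Algebra.IsAlgebraic R₀ E := alg X hind htr R₀ hC hX
  have _ : FiniteDimensional R₀ E₀ := by
    apply fin (L := L) R₀ hC E₀
    conv_lhs => rw [hE₀]
    rw [Subfield.closure_le]
    rintro _ (⟨z, rfl⟩ | ⟨j, rfl⟩)
    · exact Subfield.subset_closure (Or.inl ⟨z, rfl⟩)
    · exact Subfield.subset_closure (Or.inr (hX j))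
  have _ : CharZero R₀ := charZero_of_injective_algebraMap (algebraMap ℂ R₀).injective
  -- the polynomials are in `A`
  have hPA : ∀ P : MvPolynomial (Fin (n + 2)) ℂ, aeval Y P ∈ A := by
    intro P
    rw [hA]
    refine ⟨P, 1, ?_, ?_⟩
    · rw [map_one]; exact one_ne_zero
    · rw [map_one, div_one]
  have hPA' : ∀ P : MvPolynomial (Fin (n + 2)) ℂ, aeval x P ≠ 0 → (aeval Y P)⁻¹ ∈ A := by
    intro P hP
    rw [hA]
    refine ⟨1, P, hP, ?_⟩
    rw [map_one, one_div]
  -- the centre
  have key : ∀ O₀ : ValuationSubring E₀,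
      (∀ a : A, algebraMap R₀ E₀ (algebraMap A R₀ a) ∈ O₀) → O₀ ≠ ⊤ →
      ∃ O : ValuationSubring E, (∀ a : E₀, a ∈ O₀ ↔ (a : E) ∈ O) ∧ Ct O := by
    intro O₀ h1 h2
    obtain ⟨O, hO⟩ := hVEX E E₀ O₀
    refine ⟨O, hO, hCt O fun P => ⟨?_, ?_, ?_⟩⟩
    · have := (hO _).1 (h1 ⟨_, hPA P⟩)
      rw [← hY P]
      exact this
    · intro hP
      refine ⟨fun h => hP (hsp P h), ?_⟩
      have := (hO _).1 (h1 ⟨_, hPA' P hP⟩)
      rw [← hY P]
      exact this
    · rintro ⟨hP, hP'⟩ h
      have h3 : (aeval Y P)⁻¹ ∈ A := by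
        apply inter A t ht O₀ h1 h2
        rw [hO]
        rw [← hY P] at hP'
        exact hP'
      rw [hA] at h3
      obtain ⟨P₁, Q₁, hQ, he⟩ := h3
      have hYP : aeval Y P ≠ 0 := by
        intro h4
        apply hP
        rw [← hY, h4]; rfl
      have hYQ : aeval Y Q₁ ≠ 0 := by
        intro h4
        apply hQ
        apply hsp
        rw [← hY, h4]; rfl
      have h5 : aeval Y Q₁ = aeval Y P * aeval Y P₁ := by
        field_simp at he
        rw [he]
      have h6 : aeval X (Q₁ - P * P₁) = 0 := by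
        rw [← hY, map_sub, map_mul, h5, sub_self]; rfl
      have h7 := hsp _ h6
      rw [map_sub, map_mul, h, zero_mul, sub_zero] at h7
      exact hQ h7
  have main := hFUND A R₀ E₀ t ht (by
    intro O₁ O₂ h1 h2 h3 h4
    obtain ⟨O, hO, hc⟩ := key O₁ h1 h3
    obtain ⟨O', hO', hc'⟩ := key O₂ h2 h4
    apply ValuationSubring.ext
    intro e
    rw [hO, hO']
    exact ⟨hU O O' hc hc' e e.2, hU O' O hc' hc e e.2⟩) (by
    intro O₁ h1 h3 e he
    obtain ⟨O, hO, hc⟩ := key O₁ h1 h3
    obtain ⟨P, Q, hQ, h5⟩ := hI O hc e e.2 ((hO e).1 he)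
    have h6 : aeval Y P / aeval Y Q ∈ A := by
      rw [hA]; exact ⟨P, Q, hQ, rfl⟩
    refine ⟨⟨_, h6⟩, ?_⟩
    rw [hO]
    rw [← hY, ← hY, ← hY, ← htF] at h5
    exact h5)
  obtain ⟨r, hr⟩ := main ⟨algebraMap L E a, hLE a⟩
  have h8 : (r : E) = algebraMap L E a := congrArg Subtype.val hr
  rw [← h8]
  exact r.2

end Pool.Agent.N693.HN.RAT

open Pool.Agent.N693.HN.RAT in
theorem Pool.Agent.N693.HN.rat_ (hFUND : StFUND) (hVEX : StVEX) (hDVR : StDVR) : StRAT := by
  intro n L K Ω _ _ _ _ _ _ _ _ _ _ _ _ _ _ F d hn hSm hF hd x hx0 hxF hxtop hK hrel C hPen hU hI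
  let _ : Algebra ℂ C.E := ((algebraMap Ω C.E).comp (algebraMap ℂ Ω)).toAlgebra
  let _ : Algebra L C.E := ((algebraMap Ω C.E).comp (algebraMap L Ω)).toAlgebra
  have _ : IsScalarTower ℂ Ω C.E := IsScalarTower.of_algebraMap_eq (fun _ => rfl)
  have _ : IsScalarTower ℂ L C.E := IsScalarTower.of_algebraMap_eq (fun z => by
    change algebraMap Ω C.E (algebraMap ℂ Ω z) =
      algebraMap Ω C.E (algebraMap L Ω (algebraMap ℂ L z))
    rw [← IsScalarTower.algebraMap_apply ℂ L Ω])
  have hcmp : ∀ T : MvPolynomial (Fin (n + 2)) ℂ,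
      Pool.Agent.N162.HN.cmp Ω T C.X = aeval C.X T := by
    intro T
    rw [Pool.Agent.N162.HN.cmp, aeval_map_algebraMap]
  have hX0 : C.X 0 = 1 := C.good.one
  have hXF : aeval C.X F ≠ 0 := by
    rw [← hcmp]; exact hPen.ne
  have hsp : ∀ T : MvPolynomial (Fin (n + 2)) ℂ, aeval C.X T = 0 → aeval x T = 0 := by
    intro T hT
    obtain ⟨σ, _, v, hv⟩ := hPen.start
    have h1 := (ge_eval v C.X _ hv (map (algebraMap ℂ Ω) T)).1
    rw [aeval_map_algebraMap, hT, zero_sub] at h1
    have h2 : eval (pt x σ) (map (algebraMap ℂ Ω) T) = σ (aeval x T) := by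
      rw [eval_map, ← aeval_def]
      have : (aeval (pt x σ) : MvPolynomial (Fin (n + 2)) ℂ →ₐ[ℂ] Ω) = σ.comp (aeval x) := by
        apply MvPolynomial.algHom_ext
        intro i
        rw [AlgHom.comp_apply, aeval_X, aeval_X]
        rfl
      exact DFunLike.congr_fun this T
    rw [h2] at h1
    have h3 : σ (aeval x T) = 0 := by
      by_contra hne
      rcases h1.neg with h | h
      · rw [neg_neg, map_eq_zero] at h
        exact hne h
      · rw [neg_neg, v.ord_const hne] at h
        norm_num at h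
    exact (map_eq_zero σ).1 h3
  have hind := indep F x hx0 hxF hrel C.X hX0 hXF hsp
  refine ⟨?_, ?_⟩
  · intro P hP
    rw [aeval_map_algebraMap] at hP
    exact hind P hP
  · have t1 : Algebra.trdeg ℂ L + Algebra.trdeg L K = Algebra.trdeg ℂ K :=
      _root_.trdeg_add_eq ℂ L
    have t2 : Algebra.trdeg ℂ L + Algebra.trdeg L Ω = Algebra.trdeg ℂ Ω :=
      _root_.trdeg_add_eq ℂ L
    have t3 : Algebra.trdeg ℂ Ω + Algebra.trdeg Ω C.E = Algebra.trdeg ℂ C.E :=
      _root_.trdeg_add_eq ℂ Ω
    have t4 : Algebra.trdeg L K = 0 := trdeg_eq_zero_iff.2 inferInstance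
    have t5 : Algebra.trdeg L Ω = 0 := trdeg_eq_zero_iff.2 inferInstance
    have t6 : Algebra.trdeg Ω C.E = 1 := IsFF.trdeg
    have htr : Algebra.trdeg ℂ C.E = (n + 1 : ℕ) := by
      rw [t4, add_zero, hK] at t1
      rw [t5, add_zero, t1] at t2
      rw [← t3, ← t2, t6]
      push_cast
      rfl
    have hcore := core hFUND hVEX hDVR (L := L) F x hx0 hxF hrel C.X hX0 hXF hsp hind htr _ _ rfl rfl
      (fun O => Ctr x C O) (fun O hO P => by rw [hcmp]; exact hO P) hU (by
        intro O hO e he heO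
        obtain ⟨P, Q, hQ, h⟩ := hI O hO e he heO
        refine ⟨P, Q, hQ, ?_⟩
        rw [hcmp, hcmp, hcmp] at h
        exact h)
    exact hcore
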